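import Pool.Agent.W811.Fib.SpecIn
import Mathlib.Topology.Instances.AddCircle.DenseSubgroup

/-!
Codings of the golden rotation are in the hull of the Fibonacci word.
-/

set_option autoImplicit false

namespace Pool.Agent.W99.FM.Hull

open Pool.Agent.W811.Fib

/-- the golden rotation number -/
noncomputable def al : ℝ := (Real.sqrt 5 - 1) / 2

lemma al_sq : al * al = 1 - al := by
  unfold al
  have := Real.mul_self_sqrt (show (0:ℝ) ≤ 5 by norm_num)
  nlinarith

lemma al_pos : 0 < al := by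
  unfold al
  have : (1:ℝ) < Real.sqrt 5 := by
    rw [Real.lt_sqrt] <;> norm_num
  linarith

lemma al_lt : al < 1 := by
  unfold al
  have : Real.sqrt 5 < 3 := by
    rw [Real.sqrt_lt'] <;> norm_num
  linarith

lemma al_irr : Irrational al := by
  have h5 : Irrational (Real.sqrt 5) := by
    have := Nat.Prime.irrational_sqrt (show Nat.Prime 5 by norm_num)
    simpa using this
  unfold al
  have h : Irrational ((Real.sqrt 5 - (1:ℕ)) / (2:ℕ)) :=
    (h5.sub_natCast 1).div_natCast (by norm_num)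
  simpa using h

/-- the Fibonacci word as a coding -/
noncomputable def u (j : ℕ) : Letter :=
  if 1 - al ≤ Int.fract (((j:ℝ) + 1) * al) then Letter.a else Letter.b

/-- position of the images -/
noncomputable def p (n : ℕ) : ℕ := n + ⌊((n:ℝ) + 1) * al⌋₊

lemma pre_succ' (v : ℕ → Letter) (n : ℕ) : pre v (n + 1) = pre v n ++ [v n] := by
  unfold pre
  rw [List.range_succ, List.map_append]; rfl

lemma p_zero : p 0 = 0 := by
  unfold p
  have : ⌊(((0:ℕ):ℝ) + 1) * al⌋₊ = 0 := by
    rw [Nat.floor_eq_zero]; push_cast; linarith [al_lt]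
  rw [this]

lemma data (n : ℕ) : ∃ (N : ℕ) (x : ℝ), ((n:ℝ) + 1) * al = N + x ∧ 0 < x ∧ x < 1 ∧
    x ≠ 1 - al ∧ Int.fract (((n:ℝ) + 1) * al) = x ∧ p n = n + N := by
  have h0 : 0 ≤ ((n:ℝ) + 1) * al := by have := al_pos; positivity
  refine ⟨⌊((n:ℝ) + 1) * al⌋₊, ((n:ℝ) + 1) * al - ⌊((n:ℝ) + 1) * al⌋₊, by ring, ?_, ?_, ?_, ?_,
    rfl⟩
  · have h1 := Nat.floor_le h0
    rcases h1.lt_or_eq with h | h
    · linarith
    · exfalso
      have : Irrational (((n + 1 : ℕ) : ℝ) * al) := al_irr.natCast_mul (by omega)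
      apply this
      refine ⟨(⌊((n:ℝ) + 1) * al⌋₊ : ℚ), ?_⟩
      push_cast
      exact h
  · have := Nat.lt_floor_add_one (((n:ℝ) + 1) * al)
    linarith
  · intro h
    have : Irrational (((n + 2 : ℕ) : ℝ) * al) := al_irr.natCast_mul (by omega)
    apply this
    refine ⟨(⌊((n:ℝ) + 1) * al⌋₊ + 1 : ℚ), ?_⟩
    push_cast
    linarith
  · rw [← Int.self_sub_floor, ← natCast_floor_eq_intCast_floor h0]

lemma fract_p {n N : ℕ} {x : ℝ} (h : ((n:ℝ) + 1) * al = N + x) :
    ((((n + N : ℕ):ℝ)) + 1) * al = (n + 1) - x * al := by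
  have h1 := al_sq
  have h2 : (N:ℝ) = ((n:ℝ) + 1) * al - x := by linarith
  push_cast
  have h3 : (N:ℝ) * al = ((n:ℝ) + 1) * (al * al) - x * al := by rw [h2]; ring
  rw [h1] at h3
  nlinarith

lemma u_p (n : ℕ) : u (p n) = Letter.a := by
  obtain ⟨N, x, h, h0, h1, h2, h3, h4⟩ := data n
  have hf := fract_p h
  unfold u
  rw [if_pos]
  rw [h4, hf]
  have : Int.fract ((n:ℝ) + 1 - x * al) = 1 - x * al := by
    rw [Int.fract_eq_iff]
    have hp := al_pos
    have hl := al_lt
    refine ⟨by nlinarith, by nlinarith, (n:ℤ), by push_cast; ring⟩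
  rw [this]
  have hp := al_pos
  nlinarith

lemma u_p1 {n : ℕ} (hu : u n = Letter.a) : u (p n + 1) = Letter.b := by
  obtain ⟨N, x, h, h0, h1, h2, h3, h4⟩ := data n
  have hf := fract_p h
  have hx : 1 - al ≤ x := by
    unfold u at hu
    by_contra hc
    rw [h3, if_neg hc] at hu
    cases hu
  have hx' : 1 - al < x := lt_of_le_of_ne hx (Ne.symm h2)
  have hp := al_pos
  have hl := al_lt
  have hsq := al_sq
  have key : al * (1 - x) < 1 - al := by nlinarith
  unfold u
  rw [if_neg]
  rw [h4]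
  have e : (((n + N + 1 : ℕ):ℝ) + 1) * al = (n + 1) + al * (1 - x) := by
    push_cast at hf ⊢
    linarith
  rw [e]
  have : Int.fract ((n:ℝ) + 1 + al * (1 - x)) = al * (1 - x) := by
    rw [Int.fract_eq_iff]
    refine ⟨by nlinarith, by nlinarith, (n:ℤ) + 1, by push_cast; ring⟩
  rw [this]
  linarith

lemma p_succ_a {n : ℕ} (hu : u n = Letter.a) : p (n + 1) = p n + 2 := by
  obtain ⟨N, x, h, h0, h1, h2, h3, h4⟩ := data n
  have hx : 1 - al ≤ x := by
    unfold u at hu
    by_contra hc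
    rw [h3, if_neg hc] at hu
    cases hu
  have hl := al_lt
  rw [h4]
  unfold p
  have : ⌊(((n + 1 : ℕ):ℝ) + 1) * al⌋₊ = N + 1 := by
    rw [Nat.floor_eq_iff (by have := al_pos; positivity)]
    push_cast
    constructor <;> nlinarith
  rw [this]; ring

lemma p_succ_b {n : ℕ} (hu : u n = Letter.b) : p (n + 1) = p n + 1 := by
  obtain ⟨N, x, h, h0, h1, h2, h3, h4⟩ := data n
  have hx : ¬ (1 - al ≤ x) := by
    unfold u at hu
    intro hc
    rw [h3, if_pos hc] at hu
    cases hu
  have hp := al_pos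
  rw [h4]
  unfold p
  have : ⌊(((n + 1 : ℕ):ℝ) + 1) * al⌋₊ = N := by
    rw [Nat.floor_eq_iff (by positivity)]
    push_cast
    constructor <;> nlinarith
  rw [this]; ring

lemma subst_append (v w : List Letter) : subst (v ++ w) = subst v ++ subst w := by
  unfold subst
  rw [List.flatMap_append]

lemma subst_pre (n : ℕ) : subst (pre u n) = pre u (p n) := by
  induction n with
  | zero => rw [p_zero]; rfl
  | succ n ih =>
    rw [pre_succ', subst_append, ih]
    cases hc : u n with
    | a =>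
      rw [p_succ_a hc, show p n + 2 = (p n + 1) + 1 by ring, pre_succ', pre_succ', u_p, u_p1 hc]
      simp [subst, subst1]
    | b =>
      rw [p_succ_b hc, pre_succ', u_p]
      simp [subst, subst1]

lemma isFix_u : IsFix u := by
  intro n
  rw [subst_pre, length_pre]

/-- density -/
lemma dens (y ε : ℝ) (hε : 0 < ε) : ∃ (j : ℕ) (z : ℤ) (s : ℝ), 0 ≤ s ∧ s < ε ∧
    ((j:ℝ) + 1) * al = y + s + z := by
  have h1 : DenseRange (· • (al : AddCircle (1:ℝ)) : ℤ → AddCircle (1:ℝ)) := by
    rw [AddCircle.denseRange_zsmul_coe_iff]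
    simpa using al_irr
  have : Fact ((0:ℝ) < 1) := ⟨one_pos⟩
  have h2 : DenseRange (· • (al : AddCircle (1:ℝ)) : ℕ → AddCircle (1:ℝ)) :=
    denseRange_zsmul_iff_nsmul.1 h1
  have hU : IsOpen ((QuotientAddGroup.mk : ℝ → AddCircle (1:ℝ)) ''
      Set.Ioo (y - al) (y - al + ε)) := by
    apply QuotientAddGroup.isOpenMap_coe
    exact isOpen_Ioo
  obtain ⟨j, hj⟩ := h2.exists_mem_open hU ⟨_, y - al + ε / 2, ⟨by linarith, by linarith⟩, rfl⟩
  obtain ⟨t, ht, hjt⟩ := hj
  have e : (((j:ℝ) * al : ℝ) : AddCircle (1:ℝ)) = ((t:ℝ) : AddCircle (1:ℝ)) := by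
    rw [← nsmul_eq_mul, AddCircle.coe_nsmul]
    exact hjt.symm
  have e2 : (((j:ℝ) * al - t : ℝ) : AddCircle (1:ℝ)) = 0 := by
    rw [AddCircle.coe_sub, e, sub_self]
  rw [AddCircle.coe_eq_zero_iff] at e2
  obtain ⟨z, hz⟩ := e2
  refine ⟨j, z, t - (y - al), by linarith [ht.1], by linarith [ht.2], ?_⟩
  rw [zsmul_eq_mul, mul_one] at hz
  linarith

theorem hull : ∃ u : ℕ → Letter, IsFix u ∧ ∀ w : ℝ, InHull u (fun n : ℤ =>
    if 1 - (Real.sqrt 5 - 1) / 2 ≤ Int.fract ((n:ℝ) * ((Real.sqrt 5 - 1) / 2) + w)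
      then Letter.a else Letter.b) := by
  refine ⟨u, isFix_u, ?_⟩
  intro w m n
  change ∃ j : ℕ, ∀ t < n, (if 1 - al ≤ Int.fract (((m + (t:ℤ) : ℤ):ℝ) * al + w)
      then Letter.a else Letter.b) = u (j + t)
  set y : ℝ := m * al + w with hy
  -- right continuity
  have hrc : ∀ n : ℕ, ∃ ε : ℝ, 0 < ε ∧ ∀ t < n, ∀ s : ℝ, 0 ≤ s → s < ε →
      (1 - al ≤ Int.fract (y + t * al) ↔ 1 - al ≤ Int.fract (y + t * al + s)) := by
    intro n
    induction n with
    | zero => exact ⟨1, one_pos, fun t ht => absurd ht (by omega)⟩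
    | succ n ih =>
      obtain ⟨ε, hε, h⟩ := ih
      have hf0 := Int.fract_nonneg (y + n * al)
      have hf1 := Int.fract_lt_one (y + n * al)
      have hfl := Int.floor_add_fract (y + n * al)
      have hl := al_pos
      by_cases hc : 1 - al ≤ Int.fract (y + n * al)
      · refine ⟨min ε (1 - Int.fract (y + n * al)), lt_min hε (by linarith), ?_⟩
        intro t ht s hs0 hs1
        rcases Nat.lt_succ_iff_lt_or_eq.1 ht with h' | h'
        · exact h t h' s hs0 (lt_of_lt_of_le hs1 (min_le_left _ _))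
        · subst h'
          have hs2 := lt_of_lt_of_le hs1 (min_le_right _ _)
          have : Int.fract (y + t * al + s) = Int.fract (y + t * al) + s := by
            rw [Int.fract_eq_iff]
            refine ⟨by linarith, by linarith, ⌊y + t * al⌋, by linarith⟩
          rw [this]
          constructor
          · intro _; linarith
          · intro _; exact hc
      · push Not at hc
        refine ⟨min ε (1 - al - Int.fract (y + n * al)), lt_min hε (by linarith), ?_⟩
        intro t ht s hs0 hs1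
        rcases Nat.lt_succ_iff_lt_or_eq.1 ht with h' | h'
        · exact h t h' s hs0 (lt_of_lt_of_le hs1 (min_le_left _ _))
        · subst h'
          have hs2 := lt_of_lt_of_le hs1 (min_le_right _ _)
          have : Int.fract (y + t * al + s) = Int.fract (y + t * al) + s := by
            rw [Int.fract_eq_iff]
            refine ⟨by linarith, by linarith, ⌊y + t * al⌋, by linarith⟩
          rw [this]
          constructor
          · intro _; linarith
          · intro _; linarith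
  obtain ⟨ε, hε, h⟩ := hrc n
  obtain ⟨j, z, s, hs0, hs1, hj⟩ := dens y ε hε
  refine ⟨j, fun t ht => ?_⟩
  have h1 := h t ht s hs0 hs1
  unfold u
  have e1 : ((m + (t:ℤ) : ℤ):ℝ) * al + w = y + t * al := by
    rw [hy]; push_cast; ring
  have e2 : (((j + t : ℕ):ℝ) + 1) * al = (y + t * al + s) + z := by
    push_cast; linarith
  rw [e1, e2, Int.fract_add_intCast]
  by_cases hc : 1 - al ≤ Int.fract (y + t * al)
  · rw [if_pos hc, if_pos (h1.1 hc)]
  · rw [if_neg hc, if_neg (fun h' => hc (h1.2 h'))]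

end Pool.Agent.W99.FM.Hull
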